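import Pool.Agent.Helper69.LE.REN1

/-!
# Section 9 of the plan for MP_e167eb_pr: the renewal theorem in the diffusive window
-/

set_option autoImplicit false

namespace Pool.Agent.Helper69.LE

open Finset Filter Topology

theorem cv_sub_left (x y z : ℕ → ℝ) (j : ℕ) :
    cv (fun i => x i - y i) z j = cv x z j - cv y z j := by
  rw [cv, cv, cv, ← Finset.sum_sub_distrib]
  exact sum_congr rfl fun k _ => by ring

theorem cv_sub_right (x y z : ℕ → ℝ) (j : ℕ) :
    cv x (fun i => y i - z i) j = cv x y j - cv x z j := by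
  rw [cv, cv, cv, ← Finset.sum_sub_distrib]
  exact sum_congr rfl fun k _ => by ring

/-- `n (e^(x/n) - 1) → x` for `x ≥ 0` -/
theorem tendsto_exp_aux {x : ℝ} :
    Tendsto (fun n : ℕ => (n : ℝ) * (Real.exp (x / n) - 1)) atTop (𝓝 x) := by
  have h0 : Tendsto (fun n : ℕ => x / (n : ℝ)) atTop (𝓝 0) :=
    tendsto_const_div_atTop_nhds_zero_nat x
  have h1 : Tendsto (fun n : ℕ => x * Real.exp (x / n)) atTop (𝓝 x) := by
    have := ((Real.continuous_exp.tendsto 0).comp h0).const_mul x
    simpa using this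
  refine tendsto_of_tendsto_of_tendsto_of_le_of_le' tendsto_const_nhds h1 ?_ ?_
  · filter_upwards [eventually_ge_atTop 1] with n hn
    have hn' : (0 : ℝ) < n := by exact_mod_cast hn
    have h2 := Real.add_one_le_exp (x / n)
    have h3 : (n : ℝ) * (x / n) = x := by field_simp
    nlinarith
  · filter_upwards [eventually_ge_atTop 1] with n hn
    have hn' : (0 : ℝ) < n := by exact_mod_cast hn
    have h2 := Real.add_one_le_exp (-(x / n))
    have h3 : (n : ℝ) * (x / n) = x := by field_simp
    have h4 : Real.exp (x / n) * Real.exp (-(x / n)) = 1 := by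
      rw [← Real.exp_add]; simp
    have h5 : Real.exp (x / n) - 1 ≤ (x / n) * Real.exp (x / n) := by
      nlinarith [Real.exp_pos (x / n)]
    calc (n : ℝ) * (Real.exp (x / n) - 1) ≤ n * ((x / n) * Real.exp (x / n)) :=
          mul_le_mul_of_nonneg_left h5 hn'.le
      _ = x * Real.exp (x / n) := by rw [← mul_assoc, h3]

theorem exp_sub_one_le {h : ℝ} (hh : 0 ≤ h) : |Real.exp h - 1| ≤ h * Real.exp h := by
  have h2 := Real.add_one_le_exp (-h)
  have h3 := Real.add_one_le_exp h
  have h4 : Real.exp h * Real.exp (-h) = 1 := by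
    rw [← Real.exp_add]; simp
  rw [abs_of_nonneg (by linarith)]
  nlinarith [Real.exp_pos h]

/-- **The renewal theorem in the diffusive window.** -/
theorem renewal_main (a : ℕ → ℕ → ℝ) (al F : ℕ → ℝ) (g : ℕ → ℕ → ℝ) (gl G : ℕ → ℝ)
    (t : ℕ → ℕ → ℝ) (c : ℝ) (hc : 0 ≤ c)
    (haF : ∀ n m, |a n m| ≤ F m) (halF : ∀ m, |al m| ≤ F m)
    (hF : Summable fun m : ℕ => (m : ℝ) * F m)
    (hlim : ∀ m, Tendsto (fun n => a n m) atTop (𝓝 (al m)))
    (h1 : ∑' m, al (m + 1) = 1) (hρ : ∑' m : ℕ, (m : ℝ) * |al (m + 1)| < 1)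
    (hδ : Tendsto (fun n : ℕ => (n : ℝ) * (1 - ∑' m, a n (m + 1))) atTop (𝓝 c))
    (hgG : ∀ n m, |g n m| ≤ G m) (hG : Summable G)
    (hgl : ∀ m, Tendsto (fun n => g n m) atTop (𝓝 (gl m)))
    (ht : ∀ n j, t n j = g n j + ∑ m ∈ range j, a n (m + 1) * t n (j - 1 - m)) :
    0 < ∑' m : ℕ, (m : ℝ) * al m ∧
      Tendsto (fun n => t n n) atTop (𝓝 ((∑' m, gl m) / (∑' m : ℕ, (m : ℝ) * al m) *
        Real.exp (-(c / ∑' m : ℕ, (m : ℝ) * al m)))) := by
  have hF0 : ∀ m, 0 ≤ F m := fun m => (abs_nonneg _).trans (halF m)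
  have hG0 : ∀ m, 0 ≤ G m := fun m => (abs_nonneg _).trans (hgG 0 m)
  -- summability
  have hFs : Summable F := by
    rw [← summable_nat_add_iff 1]
    have h2 := (summable_nat_add_iff 1).2 hF
    refine Summable.of_nonneg_of_le (fun m => hF0 _) (fun m => ?_) h2
    have : (1 : ℝ) ≤ ((m + 1 : ℕ) : ℝ) := by push_cast; linarith [Nat.cast_nonneg (α := ℝ) m]
    nlinarith [hF0 (m + 1)]
  have hf : Summable fun m => |al m| :=
    Summable.of_nonneg_of_le (fun m => abs_nonneg _) halF hFs
  have hm : Summable fun m : ℕ => (m : ℝ) * |al m| :=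
    Summable.of_nonneg_of_le (fun m => by positivity)
      (fun m => mul_le_mul_of_nonneg_left (halF m) (Nat.cast_nonneg m)) hF
  have hR0 : RR al 0 = 1 := by rw [RR_zero hf, h1]
  obtain ⟨hμ, hu⟩ := ren_tendsto hf hm hR0 hρ
  refine ⟨hμ, ?_⟩
  set μ := ∑' m : ℕ, (m : ℝ) * al m with hμdef
  set ρ := ∑' m : ℕ, (m : ℝ) * |al (m + 1)| with hρdef
  have hcμ : 0 ≤ c / μ := div_nonneg hc hμ.le
  set E := Real.exp (c / μ) with hE
  have hE1 : 1 ≤ E := Real.one_le_exp hcμ
  set α : ℕ → ℝ := fun n => c / μ / n with hα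
  have hα0 : ∀ n, 0 ≤ α n := fun n => div_nonneg hcμ (Nat.cast_nonneg n)
  have hαm : ∀ n m : ℕ, m ≤ n → α n * m ≤ c / μ := by
    intro n m hmn
    rcases Nat.eq_zero_or_pos n with h | h
    · have : m = 0 := by omega
      rw [this]; simpa using hcμ
    · have hn : (0 : ℝ) < n := by exact_mod_cast h
      have hmn' : (m : ℝ) ≤ n := by exact_mod_cast hmn
      rw [hα]
      simp only
      rw [div_mul_eq_mul_div, div_le_iff₀ hn]
      exact mul_le_mul_of_nonneg_left hmn' hcμ
  have hα_lim : Tendsto α atTop (𝓝 0) := tendsto_const_div_atTop_nhds_zero_nat _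
  set A : ℕ → ℕ → ℝ := fun n m => if m ≤ n then a n m * Real.exp (α n * m) else 0 with hA
  have hAF : ∀ n m, |A n m| ≤ F m * E := by
    intro n m
    simp only [hA]
    split_ifs with h
    · rw [abs_mul, abs_of_pos (Real.exp_pos _)]
      exact mul_le_mul (haF n m) (Real.exp_le_exp.2 (hαm n m h)) (Real.exp_pos _).le (hF0 m)
    · rw [abs_zero]
      exact mul_nonneg (hF0 m) (by linarith)
  have hAlim : ∀ m, Tendsto (fun n => A n m) atTop (𝓝 (al m)) := by
    intro m
    have h2 : Tendsto (fun n => a n m * Real.exp (α n * m)) atTop (𝓝 (al m)) := by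
      have h3 : Tendsto (fun n => Real.exp (α n * m)) atTop (𝓝 1) := by
        have h4 : Tendsto (fun n => α n * m) atTop (𝓝 0) := by
          simpa using hα_lim.mul_const (m : ℝ)
        have h5 := (Real.continuous_exp.tendsto 0).comp h4
        rw [Real.exp_zero] at h5
        exact h5
      simpa using (hlim m).mul h3
    refine h2.congr' ?_
    filter_upwards [eventually_ge_atTop m] with n hn
    simp only [hA]
    rw [if_pos hn]
  have hAs : ∀ n, Summable fun m => |A n m| := fun n =>
    Summable.of_nonneg_of_le (fun m => abs_nonneg _) (hAF n) (hFs.mul_right _)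
  -- the distance
  set D : ℕ → ℝ := fun n => ∑' m : ℕ, (m : ℝ) * |A n m - al m| with hD
  have hdb : ∀ n (m : ℕ), (m : ℝ) * |A n m - al m| ≤ (m : ℝ) * F m * (E + 1) := by
    intro n m
    have h2 : |A n m - al m| ≤ F m * E + F m := (abs_sub _ _).trans (add_le_add (hAF n m) (halF m))
    have h3 := mul_le_mul_of_nonneg_left h2 (Nat.cast_nonneg (α := ℝ) m)
    linarith
  have hDs : ∀ n, Summable fun m : ℕ => (m : ℝ) * |A n m - al m| := fun n =>
    Summable.of_nonneg_of_le (fun m => by positivity) (hdb n) (hF.mul_right _)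
  have hDlim : Tendsto D atTop (𝓝 0) := by
    have h2 : Tendsto D atTop (𝓝 (∑' m : ℕ, (0 : ℝ))) := by
      refine tendsto_tsum_of_dominated_convergence (bound := fun m : ℕ => (m : ℝ) * F m * (E + 1))
        (hF.mul_right _) (fun m => ?_) (Eventually.of_forall fun n m => ?_)
      · have h3 := ((hAlim m).sub_const (al m)).abs.const_mul (m : ℝ)
        simpa using h3
      · rw [Real.norm_eq_abs, abs_mul, Nat.abs_cast, abs_abs]
        exact hdb n m
    simpa using h2
  have hdiff : ∀ n i, RR (A n) i - RR al i = RR (fun m => A n m - al m) i :=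
    fun n i => RR_sub (hAs n) hf i
  have hds : ∀ n, Summable fun m => |A n m - al m| := by
    intro n
    refine Summable.of_nonneg_of_le (fun m => abs_nonneg _) (fun m => ?_)
      ((hAs n).add hf)
    exact abs_sub _ _
  have hDsum : ∀ n N, ∑ i ∈ range N, |RR (A n) i - RR al i| ≤ D n := by
    intro n N
    have h2 := sum_RR_le (f := fun m => A n m - al m) (hds n) (hDs n) N
    refine le_trans (le_of_eq (sum_congr rfl fun i _ => ?_)) h2
    rw [hdiff]
  have hDsum' : ∀ n N, ∑ i ∈ range N, |RR (A n) (i + 1) - RR al (i + 1)| ≤ D n := by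
    intro n N
    have h2 := hDsum n (N + 1)
    rw [Finset.sum_range_succ'] at h2
    have := abs_nonneg (RR (A n) 0 - RR al 0)
    linarith
  have hρs : ∀ N, ∑ i ∈ range N, |RR al (i + 1)| ≤ ρ := sum_RR_succ_le hf hm
  have hρ0 : 0 ≤ ρ := by simpa using hρs 0
  have hAρ : ∀ n N, ∑ i ∈ range N, |RR (A n) (i + 1)| ≤ ρ + D n := by
    intro n N
    calc ∑ i ∈ range N, |RR (A n) (i + 1)|
        ≤ ∑ i ∈ range N, (|RR al (i + 1)| + |RR (A n) (i + 1) - RR al (i + 1)|) := by
          refine Finset.sum_le_sum fun i _ => ?_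
          have := abs_add_le (RR al (i + 1)) (RR (A n) (i + 1) - RR al (i + 1))
          rwa [add_sub_cancel] at this
      _ ≤ ρ + D n := by
          rw [Finset.sum_add_distrib]
          exact add_le_add (hρs N) (hDsum' n N)
  have hD0 : ∀ n, 0 ≤ D n := by
    intro n
    simpa using hDsum n 0
  -- the defect
  set δ : ℕ → ℝ := fun n => 1 - RR (A n) 0 with hδd
  have hnδ : Tendsto (fun n : ℕ => (n : ℝ) * δ n) atTop (𝓝 0) := by
    have e1 : ∀ n : ℕ, (n : ℝ) * δ n = (n : ℝ) * (1 - ∑' m, a n (m + 1)) +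
        ∑' m, (n : ℝ) * (a n (m + 1) - A n (m + 1)) := by
      intro n
      have s1 : Summable fun m => a n (m + 1) := by
        have : Summable fun m => |a n (m + 1)| :=
          Summable.of_nonneg_of_le (fun m => abs_nonneg _) (fun m => haF n (m + 1))
            ((summable_nat_add_iff 1).2 hFs)
        exact this.of_abs
      have s2 : Summable fun m => A n (m + 1) := by
        have := (summable_nat_add_iff 1).2 (hAs n)
        exact this.of_abs
      rw [tsum_mul_left, s1.tsum_sub s2, hδd]
      simp only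
      rw [RR_zero (hAs n)]
      ring
    have e2 : Tendsto (fun n : ℕ => ∑' m, (n : ℝ) * (a n (m + 1) - A n (m + 1))) atTop
        (𝓝 (∑' m : ℕ, -(al (m + 1) * (c / μ * (m + 1 : ℕ))))) := by
      refine tendsto_tsum_of_dominated_convergence
        (bound := fun m : ℕ => ((m + 1 : ℕ) : ℝ) * F (m + 1) * (1 + c / μ * E))
        (((summable_nat_add_iff 1).2 hF).mul_right _) (fun m => ?_)
        (Eventually.of_forall fun n m => ?_)
      · have h2 := tendsto_exp_aux (x := c / μ * (m + 1 : ℕ))
        have h3 := ((hlim (m + 1)).mul h2).neg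
        refine h3.congr' ?_
        filter_upwards [eventually_ge_atTop (m + 1)] with n hn
        simp only [hA, hα]
        rw [if_pos hn]
        have h4 : c / μ / (n : ℝ) * ((m + 1 : ℕ) : ℝ) = c / μ * ((m + 1 : ℕ) : ℝ) / n := by ring
        rw [h4]
        ring
      · rw [Real.norm_eq_abs, abs_mul, Nat.abs_cast]
        have hm1 : (0 : ℝ) ≤ ((m + 1 : ℕ) : ℝ) := Nat.cast_nonneg _
        have hF1 := hF0 (m + 1)
        by_cases h : m + 1 ≤ n
        · have h4 : a n (m + 1) - A n (m + 1) =
              - (a n (m + 1) * (Real.exp (α n * (m + 1 : ℕ)) - 1)) := by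
            simp only [hA]
            rw [if_pos h]
            ring
          rw [h4, abs_neg, abs_mul]
          have h5 := exp_sub_one_le (h := α n * ((m + 1 : ℕ) : ℝ)) (mul_nonneg (hα0 n) hm1)
          have hn : (0 : ℝ) < n := by
            have : 0 < n := by omega
            exact_mod_cast this
          have h6 : (n : ℝ) * |Real.exp (α n * ((m + 1 : ℕ) : ℝ)) - 1| ≤
              c / μ * ((m + 1 : ℕ) : ℝ) * E := by
            have h7 : (n : ℝ) * (α n * ((m + 1 : ℕ) : ℝ)) = c / μ * ((m + 1 : ℕ) : ℝ) := by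
              simp only [hα]
              field_simp
            calc (n : ℝ) * |Real.exp (α n * ((m + 1 : ℕ) : ℝ)) - 1|
                ≤ n * (α n * ((m + 1 : ℕ) : ℝ) * Real.exp (α n * ((m + 1 : ℕ) : ℝ))) :=
                  mul_le_mul_of_nonneg_left h5 hn.le
              _ = c / μ * ((m + 1 : ℕ) : ℝ) * Real.exp (α n * ((m + 1 : ℕ) : ℝ)) := by
                  rw [← mul_assoc, h7]
              _ ≤ c / μ * ((m + 1 : ℕ) : ℝ) * E :=
                  mul_le_mul_of_nonneg_left (Real.exp_le_exp.2 (hαm n (m + 1) h))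
                    (mul_nonneg hcμ hm1)
          calc (n : ℝ) * (|a n (m + 1)| * |Real.exp (α n * ((m + 1 : ℕ) : ℝ)) - 1|)
              = |a n (m + 1)| * (n * |Real.exp (α n * ((m + 1 : ℕ) : ℝ)) - 1|) := by ring
            _ ≤ F (m + 1) * (c / μ * ((m + 1 : ℕ) : ℝ) * E) :=
                mul_le_mul (haF n (m + 1)) h6 (by positivity) hF1
            _ ≤ ((m + 1 : ℕ) : ℝ) * F (m + 1) * (1 + c / μ * E) := by
                have : 0 ≤ ((m + 1 : ℕ) : ℝ) * F (m + 1) := mul_nonneg hm1 hF1
                nlinarith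
        · have h4 : a n (m + 1) - A n (m + 1) = a n (m + 1) := by
            simp only [hA]
            rw [if_neg h, sub_zero]
          rw [h4]
          have hn : (n : ℝ) ≤ ((m + 1 : ℕ) : ℝ) := by
            have : n ≤ m + 1 := by omega
            exact_mod_cast this
          calc (n : ℝ) * |a n (m + 1)| ≤ ((m + 1 : ℕ) : ℝ) * F (m + 1) :=
                mul_le_mul hn (haF n (m + 1)) (abs_nonneg _) hm1
            _ ≤ ((m + 1 : ℕ) : ℝ) * F (m + 1) * (1 + c / μ * E) := by
                have h5 : 0 ≤ ((m + 1 : ℕ) : ℝ) * F (m + 1) := mul_nonneg hm1 hF1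
                have h6 : 0 ≤ c / μ * E := mul_nonneg hcμ (by linarith)
                nlinarith
    have e3 : (∑' m : ℕ, -(al (m + 1) * (c / μ * (m + 1 : ℕ)))) = -c := by
      rw [tsum_neg]
      have hms : Summable fun m : ℕ => (m : ℝ) * al m := by
        refine Summable.of_norm_bounded hm fun m => ?_
        rw [Real.norm_eq_abs, abs_mul, Nat.abs_cast]
      have e4 : (∑' m : ℕ, al (m + 1) * (c / μ * ((m + 1 : ℕ) : ℝ))) =
          c / μ * ∑' m : ℕ, ((m + 1 : ℕ) : ℝ) * al (m + 1) := by
        rw [← tsum_mul_left]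
        exact tsum_congr fun m => by ring
      rw [e4]
      have e5 := hms.tsum_eq_zero_add
      rw [← hμdef] at e5
      simp only [Nat.cast_zero, zero_mul, zero_add] at e5
      rw [← e5]
      rw [div_mul_cancel₀ _ hμ.ne']
    rw [e3] at e2
    have e6 := hδ.add e2
    rw [add_neg_cancel] at e6
    exact e6.congr fun n => (e1 n).symm
  set η : ℕ → ℝ := fun n => |δ n| * (n + 2) with hη
  have hη0 : ∀ n, 0 ≤ η n := fun n => by positivity
  have hηlim : Tendsto η atTop (𝓝 0) := by
    have h2 : Tendsto (fun n : ℕ => 3 * |(n : ℝ) * δ n|) atTop (𝓝 0) := by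
      simpa using hnδ.abs.const_mul 3
    refine squeeze_zero' (Eventually.of_forall hη0) ?_ h2
    filter_upwards [eventually_ge_atTop 1] with n hn
    have hn' : (1 : ℝ) ≤ n := by exact_mod_cast hn
    simp only [hη]
    rw [abs_mul, Nat.abs_cast]
    nlinarith [abs_nonneg (δ n)]
  -- the uniform bound
  set q := (1 + ρ) / 2 with hq
  have hq1 : q < 1 := by rw [hq]; linarith
  set K := 1 / (1 - q) with hK
  have hK0 : 0 ≤ K := by
    rw [hK]
    exact div_nonneg zero_le_one (by linarith)
  have hev : ∀ᶠ n in atTop, ρ + D n + η n ≤ q := by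
    have h2 : Tendsto (fun n => ρ + D n + η n) atTop (𝓝 ρ) := by
      simpa using (hDlim.const_add ρ).add hηlim
    exact h2.eventually_le_const (by rw [hq]; linarith)
  have hbd : ∀ᶠ n in atTop, ∀ j ≤ n, |ren (A n) j| ≤ K := by
    filter_upwards [hev] with n hn
    refine sup_bound hq1 fun M hM j hj => ?_
    have hM0 : 0 ≤ M := (abs_nonneg _).trans (hM 0 (Nat.zero_le n))
    have e1 := cv_RR_ren (hAs n) j
    rw [cv_succ] at e1
    have e2 : RR (A n) 0 = 1 - δ n := by simp only [hδd]; ring
    rw [e2] at e1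
    have e3 : ren (A n) j = 1 - δ n * ∑ i ∈ range (j + 1), ren (A n) i + δ n * ren (A n) j -
        ∑ k ∈ range j, RR (A n) (k + 1) * ren (A n) (j - 1 - k) := by
      linarith
    have e4 : |∑ i ∈ range (j + 1), ren (A n) i| ≤ (n + 1) * M := by
      refine (Finset.abs_sum_le_sum_abs _ _).trans ?_
      refine (Finset.sum_le_sum fun i hi => hM i (by have := mem_range.1 hi; omega)).trans ?_
      rw [Finset.sum_const, card_range, nsmul_eq_mul]
      have : ((j + 1 : ℕ) : ℝ) ≤ n + 1 := by
        push_cast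
        have : (j : ℝ) ≤ n := by exact_mod_cast hj
        linarith
      exact mul_le_mul_of_nonneg_right this hM0
    have e5 := cv_tail_le (R := RR (A n)) (x := ren (A n)) hM (hAρ n) hj
    have e6 := hM j hj
    have e7 : |δ n * ∑ i ∈ range (j + 1), ren (A n) i| ≤ |δ n| * ((n + 1) * M) := by
      rw [abs_mul]
      exact mul_le_mul_of_nonneg_left e4 (abs_nonneg _)
    have e8 : |δ n * ren (A n) j| ≤ |δ n| * M := by
      rw [abs_mul]
      exact mul_le_mul_of_nonneg_left e6 (abs_nonneg _)
    have e9 : |ren (A n) j| ≤ 1 + |δ n| * ((n + 1) * M) + |δ n| * M + (ρ + D n) * M := by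
      rw [e3, abs_le]
      rw [abs_le] at e5 e7 e8
      constructor <;> linarith [e5.1, e5.2, e7.1, e7.2, e8.1, e8.2]
    have e10 : 1 + |δ n| * ((n + 1) * M) + |δ n| * M + (ρ + D n) * M =
        1 + (ρ + D n + η n) * M := by
      simp only [hη]
      ring
    rw [e10] at e9
    have e11 := mul_le_mul_of_nonneg_right hn hM0
    linarith
  -- comparison with the limit sequence
  have hcmp : ∀ᶠ n in atTop, ∀ j ≤ n, |ren (A n) j - ren al j| ≤ (η n + D n) * K / (1 - ρ) := by
    filter_upwards [hbd] with n hn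
    refine sup_bound (x := fun j => ren (A n) j - ren al j) hρ fun M hM j hj => ?_
    have e1 := cv_RR_ren (hAs n) j
    have e2 := cv_RR_ren hf j
    rw [hR0, sub_self, zero_mul, sub_zero] at e2
    have e3 : cv (RR al) (fun i => ren (A n) i - ren al i) j =
        - (δ n * ∑ i ∈ range (j + 1), ren (A n) i) -
          cv (fun i => RR (A n) i - RR al i) (ren (A n)) j := by
      rw [cv_sub_right, cv_sub_left, e1, e2]
      simp only [hδd]
      ring
    have e4 : |∑ i ∈ range (j + 1), ren (A n) i| ≤ (n + 2) * K := by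
      refine (Finset.abs_sum_le_sum_abs _ _).trans ?_
      refine (Finset.sum_le_sum fun i hi => hn i (by have := mem_range.1 hi; omega)).trans ?_
      rw [Finset.sum_const, card_range, nsmul_eq_mul]
      have : ((j + 1 : ℕ) : ℝ) ≤ n + 2 := by
        push_cast
        have : (j : ℝ) ≤ n := by exact_mod_cast hj
        linarith
      exact mul_le_mul_of_nonneg_right this hK0
    have e5 := cv_le (R := fun i => RR (A n) i - RR al i) (x := ren (A n)) hn (hDsum n) hj
    have e7 : |δ n * ∑ i ∈ range (j + 1), ren (A n) i| ≤ |δ n| * ((n + 2) * K) := by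
      rw [abs_mul]
      exact mul_le_mul_of_nonneg_left e4 (abs_nonneg _)
    have e8 := cv_tail_le (R := RR al) (x := fun j => ren (A n) j - ren al j) hM hρs hj
    rw [cv_succ, hR0, one_mul] at e3
    have e9 : ren (A n) j - ren al j = - (δ n * ∑ i ∈ range (j + 1), ren (A n) i) -
          cv (fun i => RR (A n) i - RR al i) (ren (A n)) j -
          ∑ k ∈ range j, RR al (k + 1) * (ren (A n) (j - 1 - k) - ren al (j - 1 - k)) := by
      linarith
    have e10 : |ren (A n) j - ren al j| ≤ |δ n| * ((n + 2) * K) + D n * K + ρ * M := by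
      rw [e9, abs_le]
      rw [abs_le] at e5 e7 e8
      constructor <;> linarith [e5.1, e5.2, e7.1, e7.2, e8.1, e8.2]
    have e11 : |δ n| * ((n + 2) * K) + D n * K + ρ * M = (η n + D n) * K + ρ * M := by
      simp only [hη]
      ring
    rw [e11] at e10
    exact e10
  have hren : ∀ m, Tendsto (fun n => ren (A n) (n - m)) atTop (𝓝 (1 / μ)) := by
    intro m
    have h2 : Tendsto (fun n => ren al (n - m)) atTop (𝓝 (1 / μ)) :=
      hu.comp (tendsto_sub_atTop_nat m)
    have h3 : Tendsto (fun n => ren (A n) (n - m) - ren al (n - m)) atTop (𝓝 0) := by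
      have h4 : Tendsto (fun n => (η n + D n) * K / (1 - ρ)) atTop (𝓝 0) := by
        have := ((hηlim.add hDlim).mul_const K).div_const (1 - ρ)
        simpa using this
      refine squeeze_zero_norm' ?_ h4
      filter_upwards [hcmp] with n hn
      rw [Real.norm_eq_abs]
      exact hn _ (Nat.sub_le n m)
    have h5 := h3.add h2
    simpa using h5
  -- conclusion
  have htn : ∀ n, t n n = ∑' k, if k < n + 1 then
      g n k * (ren (A n) (n - k) * Real.exp (-(α n * ((n - k : ℕ) : ℝ)))) else 0 := by
    intro n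
    rw [eq_cv_ren (ht n) n, cv]
    rw [tsum_eq_sum (s := range (n + 1))]
    · refine sum_congr rfl fun k hk => ?_
      rw [if_pos (mem_range.1 hk)]
      congr 1
      have e1 : ren (A n) (n - k) = ren (fun m => a n m * Real.exp (α n * m)) (n - k) := by
        refine ren_congr (n := n) (fun m _ hm2 => ?_) (n - k) (Nat.sub_le n k)
        simp only [hA]
        rw [if_pos hm2]
      rw [e1, ren_tilt, mul_assoc, ← Real.exp_add, add_neg_cancel, Real.exp_zero, mul_one]
    · intro k hk
      rw [if_neg (by simpa using hk)]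
  have hfin : Tendsto (fun n => t n n) atTop
      (𝓝 (∑' k, gl k * (1 / μ * Real.exp (-(c / μ))))) := by
    simp only [htn]
    refine tendsto_tsum_of_dominated_convergence (bound := fun k => G k * K)
      (hG.mul_right _) (fun k => ?_) ?_
    · have e1 : Tendsto (fun n : ℕ => α n * ((n - k : ℕ) : ℝ)) atTop (𝓝 (c / μ)) := by
        have e2 : Tendsto (fun n : ℕ => c / μ - α n * k) atTop (𝓝 (c / μ)) := by
          have := (hα_lim.mul_const (k : ℝ)).const_sub (c / μ)
          simpa using this
        refine e2.congr' ?_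
        filter_upwards [eventually_ge_atTop (k + 1)] with n hn
        have hn' : (0 : ℝ) < n := by
          have : 0 < n := by omega
          exact_mod_cast this
        rw [Nat.cast_sub (by omega)]
        simp only [hα]
        field_simp
      have e2 : Tendsto (fun n : ℕ => Real.exp (-(α n * ((n - k : ℕ) : ℝ)))) atTop
          (𝓝 (Real.exp (-(c / μ)))) :=
        (Real.continuous_exp.tendsto _).comp e1.neg
      have e3 := (hgl k).mul ((hren k).mul e2)
      refine e3.congr' ?_
      filter_upwards [eventually_ge_atTop k] with n hn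
      rw [if_pos (by omega)]
    · filter_upwards [hbd] with n hn k
      split_ifs
      · rw [Real.norm_eq_abs, abs_mul, abs_mul, abs_of_pos (Real.exp_pos _)]
        have e1 : Real.exp (-(α n * ((n - k : ℕ) : ℝ))) ≤ 1 := by
          rw [Real.exp_le_one_iff]
          have := mul_nonneg (hα0 n) (Nat.cast_nonneg (α := ℝ) (n - k))
          linarith
        have e2 := hn (n - k) (Nat.sub_le n k)
        refine mul_le_mul (hgG n k) ?_ (by positivity) (hG0 k)
        calc |ren (A n) (n - k)| * Real.exp (-(α n * ((n - k : ℕ) : ℝ)))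
            ≤ K * 1 := mul_le_mul e2 e1 (Real.exp_pos _).le hK0
          _ = K := mul_one K
      · rw [norm_zero]
        exact mul_nonneg (hG0 k) hK0
  rw [tsum_mul_right] at hfin
  have e : (∑' m, gl m) / μ * Real.exp (-(c / μ)) =
      (∑' m, gl m) * (1 / μ * Real.exp (-(c / μ))) := by ring
  rw [e]
  exact hfin

end Pool.Agent.Helper69.LE
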