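import Mathlib

/-!
# Renewal sequences (section 9 of the plan for MP_e167eb_pr), basic algebra
-/

set_option autoImplicit false

namespace Pool.Agent.Helper69.LE

open Finset

/-- the renewal sequence of `f` (only `f m`, `m ≥ 1`, is used) -/
noncomputable def ren (f : ℕ → ℝ) : ℕ → ℝ
  | 0 => 1
  | (j + 1) => ∑ k : Fin (j + 1), f (k + 1) * ren f (j - k)
decreasing_by omega

theorem ren_zero (f : ℕ → ℝ) : ren f 0 = 1 := by
  rw [ren]

theorem ren_succ (f : ℕ → ℝ) (j : ℕ) :
    ren f (j + 1) = ∑ k ∈ range (j + 1), f (k + 1) * ren f (j - k) := by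
  rw [ren, Finset.sum_range]

theorem ren_congr {f g : ℕ → ℝ} {n : ℕ} (h : ∀ m, 1 ≤ m → m ≤ n → f m = g m) :
    ∀ j ≤ n, ren f j = ren g j := by
  intro j
  induction j using Nat.strong_induction_on with
  | _ j ih =>
    intro hj
    cases j with
    | zero => rw [ren_zero, ren_zero]
    | succ j =>
      rw [ren_succ, ren_succ]
      refine sum_congr rfl fun k hk => ?_
      have hk' := mem_range.1 hk
      rw [h (k + 1) (by omega) (by omega), ih (j - k) (by omega) (by omega)]

theorem ren_tilt (f : ℕ → ℝ) (α : ℝ) :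
    ∀ j, ren (fun m => f m * Real.exp (α * m)) j = ren f j * Real.exp (α * j) := by
  intro j
  induction j using Nat.strong_induction_on with
  | _ j ih =>
    cases j with
    | zero => rw [ren_zero, ren_zero]; simp
    | succ j =>
      rw [ren_succ, ren_succ, Finset.sum_mul]
      refine sum_congr rfl fun k hk => ?_
      have hk' := mem_range.1 hk
      rw [ih (j - k) (by omega)]
      have e : ((j + 1 : ℕ) : ℝ) = ((k + 1 : ℕ) : ℝ) + ((j - k : ℕ) : ℝ) := by
        rw [← Nat.cast_add]
        congr 1
        omega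
      rw [e, mul_add, Real.exp_add]
      ring

/-- convolution -/
noncomputable def cv (x y : ℕ → ℝ) (j : ℕ) : ℝ := ∑ k ∈ range (j + 1), x k * y (j - k)

theorem cv_succ (x y : ℕ → ℝ) (j : ℕ) :
    cv x y j = x 0 * y j + ∑ k ∈ range j, x (k + 1) * y (j - 1 - k) := by
  rw [cv, Finset.sum_range_succ']
  rw [add_comm]
  congr 1
  refine sum_congr rfl fun k hk => ?_
  have hk' := mem_range.1 hk
  congr 2
  omega

theorem cv_last (x y : ℕ → ℝ) (j : ℕ) :
    cv x y j = x j * y 0 + ∑ k ∈ range j, x k * y (j - k) := by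
  rw [cv, Finset.sum_range_succ, Nat.sub_self, add_comm]

/-- a sequence satisfying the renewal equation is the convolution with the renewal sequence -/
theorem eq_cv_ren {f g t : ℕ → ℝ}
    (h : ∀ j, t j = g j + ∑ m ∈ range j, f (m + 1) * t (j - 1 - m)) :
    ∀ j, t j = cv g (ren f) j := by
  have h2 : ∀ j, cv g (ren f) j = g j + ∑ m ∈ range j, f (m + 1) * cv g (ren f) (j - 1 - m) := by
    intro j
    rw [cv_last, ren_zero, mul_one]
    congr 1
    have e1 : ∀ k ∈ range j, g k * ren f (j - k) =
        ∑ m ∈ range (j - k), g k * (f (m + 1) * ren f (j - k - 1 - m)) := by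
      intro k hk
      have hk' := mem_range.1 hk
      obtain ⟨i, hi⟩ : ∃ i, j - k = i + 1 := ⟨j - k - 1, by omega⟩
      rw [hi, ren_succ, Finset.mul_sum]
      refine sum_congr rfl fun m hm => ?_
      congr 3
    rw [sum_congr rfl e1]
    have e2 : ∀ m ∈ range j, f (m + 1) * cv g (ren f) (j - 1 - m) =
        ∑ k ∈ range (j - m), g k * (f (m + 1) * ren f (j - k - 1 - m)) := by
      intro m hm
      have hm' := mem_range.1 hm
      have e3 : j - m = (j - 1 - m) + 1 := by omega
      rw [e3, cv, Finset.mul_sum]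
      refine sum_congr rfl fun k hk => ?_
      have hk' := mem_range.1 hk
      have e4 : j - 1 - m - k = j - k - 1 - m := by omega
      rw [e4]
      ring
    rw [sum_congr rfl e2]
    refine Finset.sum_comm' fun k m => ?_
    simp only [mem_range]
    omega
  intro j
  induction j using Nat.strong_induction_on with
  | _ j ih =>
    rw [h, h2]
    congr 1
    refine sum_congr rfl fun m hm => ?_
    have hm' := mem_range.1 hm
    rw [ih (j - 1 - m) (by omega)]

/-- tail sums -/
noncomputable def RR (f : ℕ → ℝ) (i : ℕ) : ℝ := ∑' m, if i < m then f m else 0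

theorem RR_succ {f : ℕ → ℝ} (hf : Summable fun m => |f m|) (i : ℕ) :
    RR f i = RR f (i + 1) + f (i + 1) := by
  have hs : ∀ i : ℕ, Summable fun m => if i < m then f m else 0 := by
    intro i
    refine Summable.of_norm_bounded hf fun m => ?_
    rw [Real.norm_eq_abs]
    split_ifs
    · exact le_rfl
    · rw [abs_zero]; exact abs_nonneg _
  have h1 : (∑' m, if i < m then f m else 0) - (∑' m, if i + 1 < m then f m else 0) =
      ∑' m, if m = i + 1 then f m else 0 := by
    rw [← (hs i).tsum_sub (hs (i + 1))]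
    refine tsum_congr fun m => ?_
    by_cases h2 : m = i + 1
    · subst h2
      simp
    · rw [if_neg h2]
      by_cases h3 : i < m
      · rw [if_pos h3, if_pos (by omega), sub_self]
      · rw [if_neg h3, if_neg (by omega), sub_self]
  have h4 : (∑' m, if m = i + 1 then f m else 0) = f (i + 1) := by
    rw [tsum_eq_single (i + 1) fun b hb => if_neg hb, if_pos rfl]
  rw [h4] at h1
  rw [RR, RR]
  linarith

/-- the renewal identity -/
theorem cv_RR_ren {f : ℕ → ℝ} (hf : Summable fun m => |f m|) (N : ℕ) :
    cv (RR f) (ren f) N = 1 - (1 - RR f 0) * ∑ i ∈ range (N + 1), ren f i := by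
  induction N with
  | zero =>
    rw [cv]
    simp [ren_zero]
  | succ N ih =>
    rw [Finset.sum_range_succ, mul_add, ← sub_sub, ← ih, cv_succ]
    have e1 : ∑ k ∈ range (N + 1), RR f (k + 1) * ren f (N + 1 - 1 - k) =
        cv (RR f) (ren f) N - ren f (N + 1) := by
      rw [cv, ren_succ, ← Finset.sum_sub_distrib]
      refine sum_congr rfl fun k _ => ?_
      rw [RR_succ hf k, Nat.add_sub_cancel]
      ring
    rw [e1]
    ring

end Pool.Agent.Helper69.LE
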