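import Pool.Agent.Helper69.LE.REN0

/-!
# Renewal sequences: tails and the limit sequence
-/

set_option autoImplicit false

namespace Pool.Agent.Helper69.LE

open Finset Filter Topology

theorem abs_tsum_le' {f : ℕ → ℝ} (hf : Summable fun i => |f i|) :
    |∑' i, f i| ≤ ∑' i, |f i| := by
  have h := norm_tsum_le_tsum_norm (f := f) (by simpa only [Real.norm_eq_abs] using hf)
  simpa only [Real.norm_eq_abs] using h

theorem RR_shift {f : ℕ → ℝ} (hf : Summable fun m => |f m|) (i : ℕ) :
    RR f (i + 1) = RR (fun m => f (m + 1)) i := by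
  have hs : Summable fun m => if i + 1 < m then f m else 0 := by
    refine Summable.of_norm_bounded hf fun m => ?_
    rw [Real.norm_eq_abs]
    split_ifs
    · exact le_rfl
    · rw [abs_zero]; exact abs_nonneg _
  rw [RR, hs.tsum_eq_zero_add, if_neg (by omega), zero_add, RR]
  refine tsum_congr fun m => ?_
  by_cases h : i < m
  · rw [if_pos h, if_pos (by omega)]
  · rw [if_neg h, if_neg (by omega)]

theorem RR_zero {f : ℕ → ℝ} (hf : Summable fun m => |f m|) :
    RR f 0 = ∑' m, f (m + 1) := by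
  have hs : Summable fun m => if 0 < m then f m else 0 := by
    refine Summable.of_norm_bounded hf fun m => ?_
    rw [Real.norm_eq_abs]
    split_ifs
    · exact le_rfl
    · rw [abs_zero]; exact abs_nonneg _
  rw [RR, hs.tsum_eq_zero_add, if_neg (by omega), zero_add]
  refine tsum_congr fun m => ?_
  rw [if_pos (by omega)]

theorem sum_RR {f : ℕ → ℝ} (hf : Summable fun m => |f m|) (N : ℕ) :
    ∑ i ∈ range N, RR f i = ∑' m, (min N m : ℕ) * f m := by
  have hs : ∀ i : ℕ, Summable fun m => if i < m then f m else 0 := by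
    intro i
    refine Summable.of_norm_bounded hf fun m => ?_
    rw [Real.norm_eq_abs]
    split_ifs
    · exact le_rfl
    · rw [abs_zero]; exact abs_nonneg _
  simp only [RR]
  rw [← Summable.tsum_finsetSum fun i _ => hs i]
  refine tsum_congr fun m => ?_
  rw [← Finset.sum_filter, Finset.sum_const, nsmul_eq_mul]
  congr 2
  have : (range N).filter (fun i => i < m) = range (min N m) := by
    ext i
    simp only [mem_filter, mem_range, lt_min_iff]
  rw [this, card_range]

theorem sum_RR_le {f : ℕ → ℝ} (hf : Summable fun m => |f m|)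
    (hm : Summable fun m : ℕ => (m : ℝ) * |f m|) (N : ℕ) :
    ∑ i ∈ range N, |RR f i| ≤ ∑' m : ℕ, (m : ℝ) * |f m| := by
  have h1 : ∀ i ∈ range N, |RR f i| ≤ RR (fun m => |f m|) i := by
    intro i _
    have hs : Summable fun m => if i < m then |f m| else 0 := by
      refine Summable.of_nonneg_of_le (fun m => ?_) (fun m => ?_) hf
      · split_ifs
        · exact abs_nonneg _
        · exact le_rfl
      · split_ifs
        · exact le_rfl
        · exact abs_nonneg _
    have hs' : Summable fun m => |if i < m then f m else 0| := by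
      refine hs.congr fun m => ?_
      split_ifs
      · rfl
      · rw [abs_zero]
    refine (abs_tsum_le' hs').trans_eq ?_
    rw [RR]
    refine tsum_congr fun m => ?_
    split_ifs
    · rfl
    · rw [abs_zero]
  refine (Finset.sum_le_sum h1).trans ?_
  have hf' : Summable fun m => |(fun m => |f m|) m| := by
    simpa only [abs_abs] using hf
  rw [sum_RR hf']
  have hle : ∀ m : ℕ, ((min N m : ℕ) : ℝ) * |f m| ≤ (m : ℝ) * |f m| := by
    intro m
    refine mul_le_mul_of_nonneg_right ?_ (abs_nonneg _)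
    exact_mod_cast min_le_right N m
  refine Summable.tsum_le_tsum hle ?_ hm
  exact Summable.of_nonneg_of_le (fun m => by positivity) hle hm

theorem sum_RR_succ_le {f : ℕ → ℝ} (hf : Summable fun m => |f m|)
    (hm : Summable fun m : ℕ => (m : ℝ) * |f m|) (N : ℕ) :
    ∑ i ∈ range N, |RR f (i + 1)| ≤ ∑' m : ℕ, (m : ℝ) * |f (m + 1)| := by
  have h1 : Summable fun m => |f (m + 1)| := (summable_nat_add_iff 1).2 hf
  have h2 : Summable fun m : ℕ => (m : ℝ) * |f (m + 1)| := by
    have h3 := (summable_nat_add_iff 1).2 hm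
    refine Summable.of_nonneg_of_le (fun m => by positivity) (fun m => ?_) h3
    refine mul_le_mul_of_nonneg_right ?_ (abs_nonneg _)
    push_cast
    linarith
  have h4 := sum_RR_le (f := fun m => f (m + 1)) h1 h2 N
  refine le_trans (le_of_eq ?_) h4
  refine sum_congr rfl fun i _ => ?_
  rw [RR_shift hf]

theorem RR_sub {f g : ℕ → ℝ} (hf : Summable fun m => |f m|) (hg : Summable fun m => |g m|)
    (i : ℕ) : RR f i - RR g i = RR (fun m => f m - g m) i := by
  have hs : ∀ f : ℕ → ℝ, (Summable fun m => |f m|) →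
      Summable fun m => if i < m then f m else 0 := by
    intro f hf
    refine Summable.of_norm_bounded hf fun m => ?_
    rw [Real.norm_eq_abs]
    split_ifs
    · exact le_rfl
    · rw [abs_zero]; exact abs_nonneg _
  rw [RR, RR, RR, ← (hs f hf).tsum_sub (hs g hg)]
  refine tsum_congr fun m => ?_
  split_ifs
  · rfl
  · rw [sub_zero]

/-- sup norm bound -/
theorem sup_bound {x : ℕ → ℝ} {n : ℕ} {ε q : ℝ} (hq : q < 1)
    (h : ∀ M, (∀ i ≤ n, |x i| ≤ M) → ∀ j ≤ n, |x j| ≤ ε + q * M) :
    ∀ j ≤ n, |x j| ≤ ε / (1 - q) := by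
  obtain ⟨j₀, hj₀, hmax⟩ := Finset.exists_max_image (range (n + 1)) (fun i => |x i|)
    ⟨0, by simp⟩
  have h1 : ∀ i ≤ n, |x i| ≤ |x j₀| := fun i hi => hmax i (mem_range.2 (by omega))
  have h2 := h _ h1 j₀ (by have := mem_range.1 hj₀; omega)
  intro j hj
  rw [le_div_iff₀ (by linarith)]
  have h3 := h1 j hj
  nlinarith [abs_nonneg (x j)]

theorem cv_tail_le {R x : ℕ → ℝ} {M q : ℝ} {n : ℕ} (hM : ∀ i ≤ n, |x i| ≤ M)
    (hq : ∀ N, ∑ i ∈ range N, |R (i + 1)| ≤ q) {j : ℕ} (hj : j ≤ n) :
    |∑ k ∈ range j, R (k + 1) * x (j - 1 - k)| ≤ q * M := by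
  have hM0 : 0 ≤ M := (abs_nonneg _).trans (hM 0 (Nat.zero_le n))
  refine (Finset.abs_sum_le_sum_abs _ _).trans ?_
  calc ∑ k ∈ range j, |R (k + 1) * x (j - 1 - k)|
      ≤ ∑ k ∈ range j, |R (k + 1)| * M := by
        refine Finset.sum_le_sum fun k _ => ?_
        rw [abs_mul]
        exact mul_le_mul_of_nonneg_left (hM _ (by omega)) (abs_nonneg _)
    _ = (∑ k ∈ range j, |R (k + 1)|) * M := by rw [Finset.sum_mul]
    _ ≤ q * M := mul_le_mul_of_nonneg_right (hq j) hM0

theorem cv_le {R x : ℕ → ℝ} {M q : ℝ} {n : ℕ} (hM : ∀ i ≤ n, |x i| ≤ M)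
    (hq : ∀ N, ∑ i ∈ range N, |R i| ≤ q) {j : ℕ} (hj : j ≤ n) : |cv R x j| ≤ q * M := by
  have hM0 : 0 ≤ M := (abs_nonneg _).trans (hM 0 (Nat.zero_le n))
  refine (Finset.abs_sum_le_sum_abs _ _).trans ?_
  calc ∑ k ∈ range (j + 1), |R k * x (j - k)|
      ≤ ∑ k ∈ range (j + 1), |R k| * M := by
        refine Finset.sum_le_sum fun k _ => ?_
        rw [abs_mul]
        exact mul_le_mul_of_nonneg_left (hM _ (by omega)) (abs_nonneg _)
    _ = (∑ k ∈ range (j + 1), |R k|) * M := by rw [Finset.sum_mul]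
    _ ≤ q * M := mul_le_mul_of_nonneg_right (hq _) hM0

/-- triangle sums -/
theorem tri_le {a b : ℕ → ℝ} (ha : ∀ k, 0 ≤ a k) (hb : ∀ k, 0 ≤ b k) (N : ℕ) :
    ∑ j ∈ range N, ∑ k ∈ range j, a k * b (j - 1 - k) ≤
      (∑ k ∈ range N, a k) * ∑ i ∈ range N, b i := by
  have h1 : ∑ j ∈ range N, ∑ k ∈ range j, a k * b (j - 1 - k) =
      ∑ k ∈ range N, ∑ j ∈ Ico (k + 1) N, a k * b (j - 1 - k) := by
    refine Finset.sum_comm' fun j k => ?_
    simp only [mem_range, mem_Ico]
    omega
  rw [h1, Finset.sum_mul]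
  refine Finset.sum_le_sum fun k _ => ?_
  rw [← Finset.mul_sum]
  refine mul_le_mul_of_nonneg_left ?_ (ha k)
  rw [Finset.sum_Ico_eq_sum_range]
  have h2 : ∀ i ∈ range (N - (k + 1)), b (k + 1 + i - 1 - k) = b i := by
    intro i _
    congr 1
    omega
  rw [sum_congr rfl h2]
  exact Finset.sum_le_sum_of_subset_of_nonneg (range_subset_range.2 (by omega))
    fun i _ _ => hb i

/-- the renewal theorem for a signed sequence close to a point mass -/
theorem ren_tendsto {f : ℕ → ℝ} (hf : Summable fun m => |f m|)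
    (hm : Summable fun m : ℕ => (m : ℝ) * |f m|) (h1 : RR f 0 = 1)
    (hρ : ∑' m : ℕ, (m : ℝ) * |f (m + 1)| < 1) :
    0 < ∑' m : ℕ, (m : ℝ) * f m ∧ Tendsto (ren f) atTop (𝓝 (1 / ∑' m : ℕ, (m : ℝ) * f m)) := by
  set ρ := ∑' m : ℕ, (m : ℝ) * |f (m + 1)| with hρdef
  set R := RR f with hR
  set u := ren f with hu
  have hq : ∀ N, ∑ i ∈ range N, |R (i + 1)| ≤ ρ := sum_RR_succ_le hf hm
  have hρ0 : 0 ≤ ρ := by
    have := hq 0
    simpa using this
  have hid : ∀ j, cv R u j = 1 := by
    intro j
    rw [hR, hu, cv_RR_ren hf, ← hR, h1]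
    ring
  -- differences
  set dd : ℕ → ℝ := fun j => u (j + 1) - u j with hdd
  have hdj : ∀ j, dd j = - R (j + 1) - ∑ k ∈ range j, R (k + 1) * dd (j - 1 - k) := by
    intro j
    have e1 := hid (j + 1)
    have e2 := hid j
    rw [cv_succ, h1, one_mul] at e1 e2
    rw [Finset.sum_range_succ] at e1
    have e3 : j + 1 - 1 - j = 0 := by omega
    rw [e3, hu, ren_zero, ← hu, mul_one] at e1
    have e4 : ∑ k ∈ range j, R (k + 1) * dd (j - 1 - k) =
        ∑ k ∈ range j, R (k + 1) * u (j + 1 - 1 - k) -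
          ∑ k ∈ range j, R (k + 1) * u (j - 1 - k) := by
      rw [← Finset.sum_sub_distrib]
      refine sum_congr rfl fun k hk => ?_
      have hk' := mem_range.1 hk
      have e5 : j - 1 - k + 1 = j + 1 - 1 - k := by omega
      rw [hdd]
      simp only
      rw [e5]
      ring
    rw [e4]
    simp only [hdd]
    linarith
  have hS : ∀ N, ∑ j ∈ range N, |dd j| ≤ ρ / (1 - ρ) := by
    intro N
    rw [le_div_iff₀ (by linarith)]
    have e1 : ∑ j ∈ range N, |dd j| ≤ ∑ j ∈ range N, |R (j + 1)| +
        ∑ j ∈ range N, ∑ k ∈ range j, |R (k + 1)| * |dd (j - 1 - k)| := by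
      rw [← Finset.sum_add_distrib]
      refine Finset.sum_le_sum fun j _ => ?_
      rw [hdj j]
      refine (abs_sub _ _).trans ?_
      rw [abs_neg]
      refine add_le_add le_rfl ((Finset.abs_sum_le_sum_abs _ _).trans_eq ?_)
      exact sum_congr rfl fun k _ => abs_mul _ _
    have e2 := tri_le (a := fun k => |R (k + 1)|) (b := fun k => |dd k|)
      (fun k => abs_nonneg _) (fun k => abs_nonneg _) N
    have e3 : (∑ k ∈ range N, |R (k + 1)|) * ∑ i ∈ range N, |dd i| ≤
        ρ * ∑ i ∈ range N, |dd i| :=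
      mul_le_mul_of_nonneg_right (hq N) (Finset.sum_nonneg fun i _ => abs_nonneg _)
    have e4 := hq N
    linarith
  have hds : Summable fun j => |dd j| :=
    summable_of_sum_range_le (fun j => abs_nonneg _) hS
  have hds' : Summable dd := hds.of_abs
  -- the limit
  have huj : ∀ j, u j = 1 + ∑ i ∈ range j, dd i := by
    intro j
    rw [hdd, Finset.sum_range_sub, hu, ren_zero]
    ring
  have hlim : Tendsto u atTop (𝓝 (1 + ∑' j, dd j)) := by
    have := (hds'.hasSum.tendsto_sum_nat).const_add 1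
    exact this.congr fun j => (huj j).symm
  set l := 1 + ∑' j, dd j with hl
  have hub : ∀ j, |u j| ≤ 1 + ρ / (1 - ρ) := by
    intro j
    rw [huj]
    refine (abs_add_le _ _).trans ?_
    rw [abs_one]
    exact add_le_add le_rfl ((Finset.abs_sum_le_sum_abs _ _).trans (hS j))
  -- summability of R
  have hRs : Summable fun i => |R i| := summable_of_sum_range_le (fun j => abs_nonneg _)
    (sum_RR_le hf hm)
  have hRs' : Summable R := hRs.of_abs
  have hRsum : ∑' i, R i = ∑' m : ℕ, (m : ℝ) * f m := by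
    have e1 := hRs'.hasSum.tendsto_sum_nat
    have e2 : Tendsto (fun N : ℕ => ∑ i ∈ range N, R i) atTop (𝓝 (∑' m : ℕ, (m : ℝ) * f m)) := by
      have e3 : (fun N : ℕ => ∑ i ∈ range N, R i) =
          fun N => ∑' m, ((min N m : ℕ) : ℝ) * f m := by
        funext N
        rw [hR, sum_RR hf]
      rw [e3]
      refine tendsto_tsum_of_dominated_convergence hm (fun m => ?_)
        (Eventually.of_forall fun N m => ?_)
      · refine tendsto_const_nhds.congr' ?_
        filter_upwards [eventually_ge_atTop m] with N hN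
        rw [min_eq_right hN]
      · rw [Real.norm_eq_abs, abs_mul, Nat.abs_cast]
        refine mul_le_mul_of_nonneg_right ?_ (abs_nonneg _)
        exact_mod_cast min_le_right N m
    exact tendsto_nhds_unique e1 e2
  -- the limit of the convolution
  have hcv : Tendsto (fun j => cv R u j) atTop (𝓝 ((∑' i, R i) * l)) := by
    have e1 : (fun j => cv R u j) = fun j => ∑' k, if k < j + 1 then R k * u (j - k) else 0 := by
      funext j
      rw [tsum_eq_sum (s := range (j + 1))]
      · rw [cv]
        exact sum_congr rfl fun k hk => by rw [if_pos (mem_range.1 hk)]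
      · intro k hk
        rw [if_neg (by simpa using hk)]
    rw [e1, ← tsum_mul_right]
    refine tendsto_tsum_of_dominated_convergence (bound := fun k => |R k| * (1 + ρ / (1 - ρ)))
      (hRs.mul_right _) (fun k => ?_) (Eventually.of_forall fun N m => ?_)
    · have e2 : Tendsto (fun j => R k * u (j - k)) atTop (𝓝 (R k * l)) := by
        refine Tendsto.const_mul _ (hlim.comp ?_)
        exact tendsto_sub_atTop_nat k
      refine e2.congr' ?_
      filter_upwards [eventually_ge_atTop k] with j hj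
      rw [if_pos (by omega)]
    · split_ifs
      · rw [Real.norm_eq_abs, abs_mul]
        exact mul_le_mul_of_nonneg_left (hub _) (abs_nonneg _)
      · rw [norm_zero]
        have : 0 ≤ 1 + ρ / (1 - ρ) := by
          have : 0 ≤ ρ / (1 - ρ) := div_nonneg hρ0 (by linarith)
          linarith
        positivity
  have hone : (∑' m : ℕ, (m : ℝ) * f m) * l = 1 := by
    rw [← hRsum]
    refine tendsto_nhds_unique hcv ?_
    refine tendsto_const_nhds.congr fun j => (hid j).symm
  -- positivity
  have hpos : 0 < ∑' m : ℕ, (m : ℝ) * f m := by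
    have hms : Summable fun m : ℕ => (m : ℝ) * f m := by
      refine Summable.of_norm_bounded hm fun m => ?_
      rw [Real.norm_eq_abs, abs_mul, Nat.abs_cast]
    have e1 : Summable fun m => f (m + 1) := by
      have := (summable_nat_add_iff 1).2 hf
      exact this.of_abs
    have e0 : Summable fun m : ℕ => (m : ℝ) * |f (m + 1)| := by
      have h3 := (summable_nat_add_iff 1).2 hm
      refine Summable.of_nonneg_of_le (fun m => by positivity) (fun m => ?_) h3
      refine mul_le_mul_of_nonneg_right ?_ (abs_nonneg _)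
      push_cast
      linarith
    have e2 : Summable fun m : ℕ => (m : ℝ) * f (m + 1) := by
      refine Summable.of_norm_bounded e0 fun m => ?_
      rw [Real.norm_eq_abs, abs_mul, Nat.abs_cast]
    rw [hms.tsum_eq_zero_add]
    have e3 : (∑' m : ℕ, ((m + 1 : ℕ) : ℝ) * f (m + 1)) =
        ∑' m : ℕ, (m : ℝ) * f (m + 1) + ∑' m : ℕ, f (m + 1) := by
      rw [← e2.tsum_add e1]
      refine tsum_congr fun m => ?_
      push_cast
      ring
    rw [e3, ← RR_zero hf, ← hR, h1]
    have e4 : |∑' m : ℕ, (m : ℝ) * f (m + 1)| ≤ ρ := by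
      have e5 : Summable fun m : ℕ => |(m : ℝ) * f (m + 1)| := by
        refine e0.congr fun m => ?_
        rw [abs_mul, Nat.abs_cast]
      refine (abs_tsum_le' e5).trans_eq ?_
      refine tsum_congr fun m => ?_
      rw [abs_mul, Nat.abs_cast]
    have e5 := neg_abs_le (∑' m : ℕ, (m : ℝ) * f (m + 1))
    simp only [Nat.cast_zero, zero_mul, zero_add]
    linarith
  refine ⟨hpos, ?_⟩
  have : l = 1 / ∑' m : ℕ, (m : ℝ) * f m := by
    rw [eq_div_iff hpos.ne', mul_comm]
    exact hone
  rw [← this]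
  exact hlim

end Pool.Agent.Helper69.LE
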